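import Pool.Agent.Helper999.Irr.Final
import Pool.Agent.Helper999.Irr.Broom

/-!
# MP_033e98_co: trees whose irregularity strength equals the number of leaves

For every `p ≥ 3` the number `n(p)` exists and `2p - 20√p ≤ n(p) ≤ 2p + 1`; so `n(p)/p → 2`.
-/

namespace Pool.Agent.Results.MP_033e98_co.Asymptotic

open Pool.Agent.Helper999.Irr

/-- `n(p)`: the largest integer `N` such that every tree with exactly `p` leaves and order at
most `N` has irregularity strength `p`. (That this supremum is a maximum for `p ≥ 3` is part of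
the theorem below.) -/
noncomputable def nMax (p : ℕ) : ℕ := sSup {N : ℕ | Good p N}

lemma good_of_le {p N : ℕ} (hp : 3 ≤ p) (h : N + 16 * (Nat.sqrt p + 1) +
    2 * (p / (Nat.sqrt p + 1)) + 20 ≤ 2 * p) : Good p N := by
  intro k hk T hT hl
  apply strength_of_tree T hT p (Nat.sqrt p + 1) (by omega) hl
  rw [Fintype.card_fin]
  omega

lemma good_self {p : ℕ} (hp : 3 ≤ p) : Good p p := by
  intro k hk T hT hl
  exfalso
  have h1 := leafCount_eq T
  obtain ⟨r0⟩ := hT.connected.nonempty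
  obtain ⟨par, dep, h⟩ := exists_rooted T hT r0
  have h2 := handshake h
  have h3 : (Finset.univ.filter (fun v => dg T v = 1)).card ≤ (Finset.univ : Finset (Fin k)).card :=
    Finset.card_le_card (Finset.filter_subset _ _)
  rw [Finset.card_univ, Fintype.card_fin] at h3
  rw [Fintype.card_fin] at h2
  have h4 : Finset.univ.filter (fun v => dg T v = 1) = (Finset.univ : Finset (Fin k)) := by
    apply Finset.eq_of_subset_of_card_le (Finset.filter_subset _ _)
    rw [Finset.card_univ, Fintype.card_fin]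
    omega
  have h5 : ∑ v : Fin k, dg T v = k := by
    rw [Finset.sum_congr rfl (g := fun _ => 1)]
    · simp
    · intro v hv
      rw [← h4] at hv
      exact (Finset.mem_filter.1 hv).2
  omega

lemma good_bdd {p N : ℕ} (hp : 3 ≤ p) (h : Good p N) : N ≤ 2 * p + 1 := by
  by_contra hcon
  obtain ⟨T, hT, hl, hs⟩ := broom p hp
  exact hs (h (2 * p + 2) (by omega) T hT hl)

lemma isGreatest_nMax {p : ℕ} (hp : 3 ≤ p) : IsGreatest {N : ℕ | Good p N} (nMax p) := by
  have hb : BddAbove {N : ℕ | Good p N} := ⟨2 * p + 1, fun N hN => good_bdd hp hN⟩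
  exact ⟨Nat.sSup_mem ⟨p, good_self hp⟩ hb, fun N hN => le_csSup hb hN⟩

lemma lower {p : ℕ} (hp : 3 ≤ p) : (2 * p : ℝ) - 20 * Real.sqrt p ≤ nMax p := by
  have hs : (Nat.sqrt p : ℝ) ≤ Real.sqrt p := Real.nat_sqrt_le_real_sqrt
  rcases le_or_gt p 400 with h | h
  · have h1 : (p : ℝ) ≤ nMax p := by exact_mod_cast (isGreatest_nMax hp).2 (good_self hp)
    have h2 : Real.sqrt p ≤ 20 := by
      rw [show (20 : ℝ) = Real.sqrt 400 by
        rw [show (400 : ℝ) = 20 ^ 2 by norm_num, Real.sqrt_sq (by norm_num)]]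
      exact Real.sqrt_le_sqrt (by exact_mod_cast h)
    have h3 : (p : ℝ) = Real.sqrt p * Real.sqrt p := by
      rw [Real.mul_self_sqrt (Nat.cast_nonneg _)]
    have h4 := Real.sqrt_nonneg (p : ℝ)
    nlinarith
  · obtain ⟨s, hsdef⟩ : ∃ s, s = Nat.sqrt p := ⟨_, rfl⟩
    have h1 : 20 ≤ s := by
      rw [hsdef, Nat.le_sqrt]; omega
    have h2 : s * s ≤ p := by rw [hsdef]; exact Nat.sqrt_le p
    have h3 : p / (s + 1) ≤ s := by
      have : p < (s + 1) * (s + 1) := by rw [hsdef]; exact Nat.lt_succ_sqrt p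
      exact Nat.lt_succ_iff.1 (Nat.div_lt_of_lt_mul this)
    have h20 : 20 * s ≤ s * s := Nat.mul_le_mul_right s h1
    have h4 : Good p (2 * p - 20 * s) := by
      apply good_of_le hp
      rw [← hsdef]
      omega
    have h5 : 2 * p - 20 * s ≤ nMax p := (isGreatest_nMax hp).2 h4
    have h6 : 2 * p ≤ nMax p + 20 * s := by omega
    have h7 : (2 * p : ℝ) ≤ nMax p + 20 * s := by exact_mod_cast h6
    have h8 : (s : ℝ) ≤ Real.sqrt p := by rw [hsdef]; exact hs
    linarith

/-- For every `p ≥ 3` the number `n(p) = nMax p` exists (it is the greatest `N` such that every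
tree with exactly `p` leaves and order at most `N` has irregularity strength `p`), and
`2p - 20√p ≤ n(p) ≤ 2p + 1`. In particular `n(p) / p → 2`. -/
theorem result :
    (∀ p : ℕ, 3 ≤ p → IsGreatest {N : ℕ | Good p N} (nMax p) ∧
      (2 * p : ℝ) - 20 * Real.sqrt p ≤ nMax p ∧ nMax p ≤ 2 * p + 1) ∧
    Filter.Tendsto (fun p : ℕ => (nMax p : ℝ) / p) Filter.atTop (nhds 2) := by
  have main : ∀ p : ℕ, 3 ≤ p → IsGreatest {N : ℕ | Good p N} (nMax p) ∧
      (2 * p : ℝ) - 20 * Real.sqrt p ≤ nMax p ∧ nMax p ≤ 2 * p + 1 := by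
    intro p hp
    have h := isGreatest_nMax hp
    exact ⟨h, lower hp, good_bdd hp h.1⟩
  refine ⟨main, ?_⟩
  have hsq : Filter.Tendsto (fun p : ℕ => Real.sqrt (p : ℝ)) Filter.atTop Filter.atTop :=
    Real.tendsto_sqrt_atTop.comp tendsto_natCast_atTop_atTop
  have h1 : Filter.Tendsto (fun p : ℕ => (2 : ℝ) - 20 / Real.sqrt p) Filter.atTop (nhds 2) := by
    have := (tendsto_const_nhds (x := (2 : ℝ))).sub
      ((tendsto_const_nhds (x := (20 : ℝ))).div_atTop hsq)
    simpa using this
  have h2 : Filter.Tendsto (fun p : ℕ => (2 : ℝ) + 1 / (p : ℝ)) Filter.atTop (nhds 2) := by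
    have := (tendsto_const_nhds (x := (2 : ℝ))).add
      ((tendsto_const_nhds (x := (1 : ℝ))).div_atTop tendsto_natCast_atTop_atTop)
    simpa using this
  refine tendsto_of_tendsto_of_tendsto_of_le_of_le' h1 h2 ?_ ?_
  · filter_upwards [Filter.eventually_ge_atTop 3] with p hp
    have hp0 : (0 : ℝ) < p := by exact_mod_cast (by omega : 0 < p)
    have h3 : (p : ℝ) = Real.sqrt p * Real.sqrt p := by
      rw [Real.mul_self_sqrt (Nat.cast_nonneg _)]
    have hs0 : 0 < Real.sqrt (p : ℝ) := Real.sqrt_pos.2 hp0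
    rw [le_div_iff₀ hp0]
    have h4 : (2 - 20 / Real.sqrt p) * (p : ℝ) = 2 * p - 20 * Real.sqrt p := by
      have : 20 / Real.sqrt p * (p : ℝ) = 20 * Real.sqrt p := by
        rw [div_mul_eq_mul_div, div_eq_iff hs0.ne']
        rw [mul_assoc, ← h3]
      linarith
    rw [h4]
    exact (main p hp).2.1
  · filter_upwards [Filter.eventually_ge_atTop 3] with p hp
    have hp0 : (0 : ℝ) < p := by exact_mod_cast (by omega : 0 < p)
    rw [div_le_iff₀ hp0]
    have h5 : (nMax p : ℝ) ≤ 2 * p + 1 := by exact_mod_cast (main p hp).2.2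
    have h6 : (2 + 1 / (p : ℝ)) * p = 2 * p + 1 := by
      field_simp
    rw [h6]; exact h5

end Pool.Agent.Results.MP_033e98_co.Asymptotic
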